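import Pool.Agent.G02.StmtsS

/-!
# Squad G02 (MP_ba5221_nt), row GRW: the generic rank, type W
-/

set_option autoImplicit false

namespace Pool.Agent.G02.H89

open Polynomial Pool.Agent.NJ Pool.Agent.GT.F

noncomputable section

/-- A point from `X` and `Y`. -/
theorem ptw {K : Type} [Field K] [CharZero K] (W : WeierstrassCurve K) (e a b X Y : K)
    (h : Rt1 W e a b) (hY : Y ≠ 0) (hE : Y ^ 2 = X * (X ^ 2 + a * X + b)) :
    W.toAffine.Nonsingular (e + X) ((2 * Y - W.a₁ * (e + X) - W.a₃) / 2) := by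
  have h2 : (2 : K) ≠ 0 := two_ne_zero
  have h4 : (4 : K) ≠ 0 := by norm_num
  obtain ⟨h1, h3, h5⟩ := h
  unfold WeierstrassCurve.b₂ at h1
  unfold WeierstrassCurve.b₄ at h3
  unfold WeierstrassCurve.b₆ at h5
  set y : K := (2 * Y - W.a₁ * (e + X) - W.a₃) / 2 with hy
  have hy2 : 2 * y = 2 * Y - W.a₁ * (e + X) - W.a₃ := by
    rw [hy]; field_simp
  rw [WeierstrassCurve.Affine.nonsingular_iff, WeierstrassCurve.Affine.equation_iff]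
  refine ⟨?_, Or.inr ?_⟩
  · have hY2 : 2 * Y = 2 * y + W.a₁ * (e + X) + W.a₃ := by
      rw [hy2]; ring
    apply mul_left_cancel₀ h4
    have e1 : 4 * Y ^ 2 = (2 * y + W.a₁ * (e + X) + W.a₃) ^ 2 := by
      rw [← hY2]; ring
    rw [hE] at e1
    linear_combination (-1 : K) * e1 - (e + X) ^ 2 * h1 - 2 * (e + X) * h3 - h5
  · intro h6
    apply hY
    apply mul_left_cancel₀ h2
    linear_combination h6 - hy2

/-- a Möbius function is not constant -/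
theorem lnc {x y : ℚ[X]} (h : Lin x y) (c : ℚ) : x ≠ C c * y := by
  intro hx
  have hc := h.cop
  rw [hx] at hc
  have hu : IsUnit y := by
    obtain ⟨u, v, huv⟩ := hc
    exact IsUnit.of_mul_eq_one (u * C c + v) (by linear_combination huv)
  have hy0 : y.natDegree = 0 := natDegree_eq_zero_of_isUnit hu
  refine h.nc ⟨?_, hy0⟩
  rw [hx]
  have h1 := natDegree_C_mul_le c y
  omega

theorem grw (hrkl : RklStmt) (hntd : NtdStmt) (htwv : TwvStmt) (hmob : MobStmt)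
    (hevd : EvdStmt) (hdlt : DltStmt) (hevl : GT.F.EvlStmt) : GrwStmt := by
  classical
  intro E e a b x y m hΔ hR hT
  have hch : CharZero (RatFunc ℚ) :=
    charZero_of_injective_algebraMap (R := ℚ[X])
      (IsFractionRing.injective ℚ[X] (RatFunc ℚ))
  obtain ⟨hev1, hev2, -, hev4⟩ := hevl
  have hRg : Rt1 (gen E) (algebraMap ℚ[X] (RatFunc ℚ) e) (algebraMap ℚ[X] (RatFunc ℚ) a)
      (algebraMap ℚ[X] (RatFunc ℚ) b) := hR.map _
  have ha := hT.ha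
  have hb := hT.hb
  have hC2 : (RatFunc.C (2 : ℚ) : RatFunc ℚ) = 2 := map_ofNat _ 2
  simp only [pow_zero, pow_one, mul_one, hC2] at ha hb
  have hm0 : m ≠ 0 := hT.m0
  have hinjA : Function.Injective (algebraMap ℚ[X] (RatFunc ℚ)) :=
    IsFractionRing.injective ℚ[X] (RatFunc ℚ)
  have hy0 : algebraMap ℚ[X] (RatFunc ℚ) y ≠ 0 := by
    intro h
    exact hT.lin.y0 (hinjA (by rw [h, map_zero]))
  obtain ⟨l, hl⟩ : ∃ l, l = lam x y := ⟨_, rfl⟩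
  rw [← hl] at ha hb
  have hl1 : l * algebraMap ℚ[X] (RatFunc ℚ) y = algebraMap ℚ[X] (RatFunc ℚ) x := by
    rw [hl]
    unfold lam
    field_simp
  have hl4 : l - 4 ≠ 0 := by
    intro h
    have h4 : l = 4 := by linear_combination h
    rw [h4] at hl1
    refine lnc hT.lin 4 (hinjA ?_)
    rw [← hl1, map_mul]
    have : (algebraMap ℚ[X] (RatFunc ℚ) (C 4)) = 4 := by
      have e4 : (C (4 : ℚ) : ℚ[X]) = 4 := map_ofNat _ 4
      rw [e4]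
      exact map_ofNat _ 4
    rw [this]
  have hl3 : 3 * l + 4 ≠ 0 := by
    intro h
    refine lnc hT.lin (-(4 / 3)) (hinjA ?_)
    have e3 : (3 : RatFunc ℚ) ≠ 0 := by norm_num
    apply mul_left_cancel₀ e3
    have h5 : (3 : RatFunc ℚ) = algebraMap ℚ[X] (RatFunc ℚ) (C 3) := by
      have e4 : (C (3 : ℚ) : ℚ[X]) = 3 := map_ofNat _ 3
      rw [e4]
      exact (map_ofNat _ 3).symm
    have h6 : algebraMap ℚ[X] (RatFunc ℚ) (C 4) = 4 := by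
      have e4 : (C (4 : ℚ) : ℚ[X]) = 4 := map_ofNat _ 4
      rw [e4]
      exact map_ofNat _ 4
    have h7 : (3 : RatFunc ℚ) * algebraMap ℚ[X] (RatFunc ℚ) (C (-(4 / 3)) * y) =
        -(4 * algebraMap ℚ[X] (RatFunc ℚ) y) := by
      rw [h5, ← map_mul, ← h6, ← map_mul, ← map_neg]
      congr 1
      rw [← mul_assoc, ← C_mul, ← neg_mul, ← C_neg]
      norm_num
    rw [h7, ← hl1]
    linear_combination (algebraMap ℚ[X] (RatFunc ℚ) y) * h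
  -- the point
  obtain ⟨X0, hX0⟩ : ∃ X0 : RatFunc ℚ, X0 = m ^ 2 * (l - 4) ^ 2 / 4 := ⟨_, rfl⟩
  obtain ⟨Y0, hY0⟩ : ∃ Y0 : RatFunc ℚ, Y0 = m ^ 3 * (l - 4) ^ 2 * (3 * l + 4) / 8 := ⟨_, rfl⟩
  have hY0' : Y0 ≠ 0 := by
    rw [hY0]
    exact div_ne_zero (mul_ne_zero (mul_ne_zero (pow_ne_zero 3 hm0) (pow_ne_zero 2 hl4)) hl3)
      (by norm_num)
  have hEq : Y0 ^ 2 = X0 * (X0 ^ 2 + algebraMap ℚ[X] (RatFunc ℚ) a * X0 +
      algebraMap ℚ[X] (RatFunc ℚ) b) := by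
    rw [ha, hb, hX0, hY0]
    field_simp
    ring
  have hns := ptw (gen E) _ _ _ X0 Y0 hRg hY0' hEq
  obtain ⟨xP, hxP⟩ : ∃ xP : RatFunc ℚ, xP = algebraMap ℚ[X] (RatFunc ℚ) e + X0 := ⟨_, rfl⟩
  rw [← hxP] at hns
  obtain ⟨yP, hyP⟩ : ∃ yP : RatFunc ℚ, yP = (2 * Y0 - (gen E).a₁ * xP - (gen E).a₃) / 2 :=
    ⟨_, rfl⟩
  rw [← hyP] at hns
  have hyP2 : 2 * yP = 2 * Y0 - (gen E).a₁ * xP - (gen E).a₃ := by
    rw [hyP]; field_simp
  have ga1 : (gen E).a₁ = algebraMap ℚ[X] (RatFunc ℚ) E.a₁ := rfl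
  have ga3 : (gen E).a₃ = algebraMap ℚ[X] (RatFunc ℚ) E.a₃ := rfl
  -- the exceptional sets
  obtain ⟨Z1, hZ1⟩ := hevd a b x y 2 m 0 1 hT
  obtain ⟨Z2, hZ2⟩ := hev4 yP
  obtain ⟨Z3, hZ3⟩ := hev4 xP
  obtain ⟨Z4, hZ4⟩ := hev4 (2 * Y0)
  obtain ⟨Z5, hZ5⟩ := hmob x y hT.lin (Z1 ∪ Z2 ∪ Z3 ∪ Z4)
  -- the parameter
  have hinf : (Set.range (fun n : ℕ => (8 * (2 * n + 1) : ℚ) / (4 * n + 1))).Infinite := by
    apply Set.infinite_range_of_injective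
    intro n1 n2 hn
    simp only at hn
    have p1 : (4 * (n1 : ℚ) + 1) ≠ 0 := by positivity
    have p2 : (4 * (n2 : ℚ) + 1) ≠ 0 := by positivity
    rw [div_eq_div_iff p1 p2] at hn
    have h1 : (n1 : ℚ) = n2 := by linear_combination -hn / 16
    exact_mod_cast h1
  obtain ⟨τ, hτ1, hτ2⟩ := hinf.exists_notMem_finset Z5
  obtain ⟨n, hn⟩ := hτ1
  simp only at hn
  obtain ⟨t, ht1, ht2, ht3⟩ := hZ5 τ hτ2
  simp only [Finset.mem_union, not_or] at ht1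
  obtain ⟨⟨⟨ht1a, ht1b⟩, ht1c⟩, ht1d⟩ := ht1
  obtain ⟨hμ0, hmd, hat, hbt⟩ := hZ1 t ht1a τ ht3 ht2
  obtain ⟨hyd, -⟩ := hZ2 t ht1b
  obtain ⟨hxd, -⟩ := hZ3 t ht1c
  obtain ⟨hYd, hYe⟩ := hZ4 t ht1d
  have hYe' := hYe (mul_ne_zero two_ne_zero hY0')
  obtain ⟨μ, hμ⟩ : ∃ μ : ℚ, μ = ev t m := ⟨_, rfl⟩
  rw [← hμ] at hμ0 hat hbt
  simp only [pow_zero, pow_one, mul_one] at hat hbt
  have hq : (4 * (n : ℚ) + 1) ≠ 0 := by positivity
  obtain ⟨M, hM⟩ : ∃ M : ℚ, M = 4 * μ / (4 * n + 1) := ⟨_, rfl⟩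
  have hM0 : M ≠ 0 := by
    rw [hM]
    exact div_ne_zero (mul_ne_zero (by norm_num) hμ0) hq
  obtain ⟨A, hA⟩ : ∃ A : ℤ, A = 4 * (2 * n + 1) := ⟨_, rfl⟩
  obtain ⟨B, hB⟩ : ∃ B : ℤ, B = 2 * (2 * n + 1) * (4 * n + 1) := ⟨_, rfl⟩
  have hat' : a.eval t = (A : ℚ) * M ^ 2 := by
    rw [hat, ← hn, hA, hM]
    push_cast
    field_simp
    ring
  have hbt' : b.eval t = (B : ℚ) * M ^ 4 := by
    rw [hbt, ← hn, hB, hM]
    push_cast
    field_simp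
    ring
  have hB0 : B ≠ 0 := by
    rw [hB]
    positivity
  have hAB : A ^ 2 - 4 * B ≠ 0 := by
    have h1 : A ^ 2 - 4 * B = 8 * (2 * n + 1) := by
      rw [hA, hB]
      ring
    rw [h1]
    positivity
  have hBm : B % 4 = 2 := by
    have h1 : B = 4 * (4 * (n : ℤ) ^ 2 + 3 * n) + 2 := by
      rw [hB]
      ring
    rw [h1]
    omega
  have hRf : Rt1 (fib E t) (e.eval t) (a.eval t) (b.eval t) := hR.map (evalRingHom t)
  rw [hat', hbt'] at hRf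
  have hBq : (B : ℚ) ≠ 0 := by exact_mod_cast hB0
  have hABq : (A : ℚ) ^ 2 - 4 * B ≠ 0 := by exact_mod_cast hAB
  have hΔt : (fib E t).Δ ≠ 0 := by
    rw [hdlt ℚ (fib E t) _ _ _ hRf]
    have e1 : (16 : ℚ) * (B * M ^ 4) ^ 2 * (((A : ℚ) * M ^ 2) ^ 2 - 4 * (B * M ^ 4)) =
        16 * (B * M ^ 4) ^ 2 * (((A : ℚ) ^ 2 - 4 * B) * M ^ 4) := by
      ring
    rw [e1]
    exact mul_ne_zero (mul_ne_zero (by norm_num) (pow_ne_zero 2 (mul_ne_zero hBq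
      (pow_ne_zero 4 hM0)))) (mul_ne_zero hABq (pow_ne_zero 4 hM0))
  -- values
  obtain ⟨h2d, h2e⟩ := hev2 t 2
  have h2a : algebraMap ℚ[X] (RatFunc ℚ) 2 = 2 := map_ofNat _ 2
  obtain ⟨h1d, h1e⟩ := hev2 t E.a₁
  obtain ⟨h3d, h3e⟩ := hev2 t E.a₃
  obtain ⟨-, -, -, -, q1d, q1⟩ := hev1 t _ yP h2d hyd
  obtain ⟨-, -, -, -, q2d, q2⟩ := hev1 t _ xP h1d hxd
  obtain ⟨q3d, q3, -, -, -, -⟩ := hev1 t _ _ q1d q2d
  obtain ⟨q4d, q4, -, -, -, -⟩ := hev1 t _ _ q3d h3d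
  have hid : algebraMap ℚ[X] (RatFunc ℚ) 2 * yP + algebraMap ℚ[X] (RatFunc ℚ) E.a₁ * xP +
      algebraMap ℚ[X] (RatFunc ℚ) E.a₃ = 2 * Y0 := by
    rw [h2a, ← ga1, ← ga3]
    linear_combination hyP2
  have hval : 2 * ev t yP + (fib E t).a₁ * ev t xP + (fib E t).a₃ = ev t (2 * Y0) := by
    have f1 : (fib E t).a₁ = E.a₁.eval t := rfl
    have f3 : (fib E t).a₃ = E.a₃.eval t := rfl
    have e2 : (2 : ℚ[X]).eval t = 2 := by simp
    rw [hid, q3, q1, q2, h1e, h3e, h2e, e2] at q4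
    rw [f1, f3]
    linear_combination -q4
  -- conclusion
  refine hrkl E t (.some xP yP hns) hΔt ?_
  intro sp hsp k hk
  obtain ⟨h', hsp'⟩ := hsp.1 xP yP hns hxd
  rw [hsp']
  refine hntd (fib E t) (e.eval t) M A B hM0 hRf hB0 hAB ?_ _ _ h' ?_ k hk
  · apply htwv
    left
    exact hBm
  · rw [hval]
    exact hYe'

end

end Pool.Agent.G02.H89
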