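import Pool.Agent.G02.StmtsR

/-!
# Row NTD: points of infinite order by 2-adic size
-/

set_option autoImplicit false

namespace Pool.Agent.G02.H89

open Polynomial Pool.Agent.G02 WeierstrassCurve WeierstrassCurve.Affine

/-- the equation in terms of the root -/
theorem ceq {W : WeierstrassCurve ℚ} {e A B : ℚ} (hR : Rt1 W e A B) {x y : ℚ}
    (h : W.toAffine.Nonsingular x y) :
    (2 * y + W.a₁ * x + W.a₃) ^ 2 = 4 * ((x - e) * ((x - e) ^ 2 + A * (x - e) + B)) := by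
  have hE := (Affine.equation_iff' _ _).1 h.1
  obtain ⟨h2, h4, h6⟩ := hR
  unfold WeierstrassCurve.b₂ at h2
  unfold WeierstrassCurve.b₄ at h4
  unfold WeierstrassCurve.b₆ at h6
  linear_combination 4 * hE + x ^ 2 * h2 + 2 * x * h4 + h6

/-- the doubling formula -/
theorem dbf [DecidableEq ℚ] {W : WeierstrassCurve ℚ} {e A B : ℚ} (hR : Rt1 W e A B) {x y : ℚ}
    (h : W.toAffine.Nonsingular x y) (hY : 2 * y + W.a₁ * x + W.a₃ ≠ 0) :
    ∃ (x' y' : ℚ) (h' : W.toAffine.Nonsingular x' y'),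
      (Point.some x y h + Point.some x y h : W.toAffine.Point) = Point.some x' y' h' ∧
      x' - e = ((x - e) ^ 2 - B) ^ 2 / (2 * y + W.a₁ * x + W.a₃) ^ 2 := by
  have hC := ceq hR h
  have hyn : y ≠ W.toAffine.negY x y := by
    intro h1
    apply hY
    have h2 : W.toAffine.negY x y = -y - W.a₁ * x - W.a₃ := rfl
    rw [h2] at h1
    linear_combination h1
  refine ⟨_, _, _, Affine.Point.add_self_of_Y_ne hyn, ?_⟩
  have hs : W.toAffine.slope x x y y =
      (3 * x ^ 2 + 2 * W.a₂ * x + W.a₄ - W.a₁ * y) / (2 * y + W.a₁ * x + W.a₃) := by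
    rw [Affine.slope_of_Y_ne rfl hyn]
    have h2 : y - W.toAffine.negY x y = 2 * y + W.a₁ * x + W.a₃ := by
      have h2 : W.toAffine.negY x y = -y - W.a₁ * x - W.a₃ := rfl
      rw [h2]
      ring
    rw [h2]
  rw [hs]
  unfold Affine.addX
  obtain ⟨h2, h4, h6⟩ := hR
  unfold WeierstrassCurve.b₂ at h2
  unfold WeierstrassCurve.b₄ at h4
  unfold WeierstrassCurve.b₆ at h6
  have e2 : W.a₂ = A - 3 * e - W.a₁ ^ 2 / 4 := by linear_combination h2 / 4
  have e4 : W.a₄ = (6 * e ^ 2 - 4 * A * e + 2 * B) / 2 - W.a₁ * W.a₃ / 2 := by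
    linear_combination h4 / 2
  obtain ⟨Z, hZ⟩ : ∃ Z, Z = 2 * y + W.a₁ * x + W.a₃ := ⟨_, rfl⟩
  have hy : y = (Z - W.a₁ * x - W.a₃) / 2 := by rw [hZ]; ring
  rw [← hZ] at hC hY ⊢
  rw [e2, e4, hy]
  rw [eq_div_iff (pow_ne_zero 2 hY)]
  field_simp
  linear_combination (-(64 * (A + 2 * (x - e)))) * hC

/-- a root of `x² + a x + b` is 2-integral -/
theorem nrt {a b : ℤ} {x : ℚ} (hx : padicValRat 2 x < 0) : x ^ 2 + a * x + b ≠ 0 := by
  have : Fact (Nat.Prime 2) := ⟨Nat.prime_two⟩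
  intro h
  have hx0 : x ≠ 0 := by
    rintro rfl
    simp at hx
  have h1 : 1 < padicNorm 2 x := by
    rw [padicNorm.eq_zpow_of_nonzero hx0]
    exact one_lt_zpow₀ (by norm_num) (by omega)
  have h2 : x ^ 2 = -(a * x + b) := by linear_combination h
  have h3 : padicNorm 2 (x ^ 2) ≤ padicNorm 2 x := by
    rw [h2, padicNorm.neg]
    refine le_trans padicNorm.nonarchimedean (max_le ?_ ?_)
    · rw [padicNorm.mul]
      have := padicNorm.of_int (p := 2) a
      have h0 := padicNorm.nonneg (p := 2) x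
      calc padicNorm 2 (a : ℚ) * padicNorm 2 x ≤ 1 * padicNorm 2 x :=
            mul_le_mul_of_nonneg_right this h0
        _ = padicNorm 2 x := one_mul _
    · have := padicNorm.of_int (p := 2) b
      linarith
  rw [sq, padicNorm.mul] at h3
  nlinarith

/-- the point has 2-adic size `v < 0` -/
def Gv (W : WeierstrassCurve ℚ) (e m : ℚ) (v : ℤ) (Q : W.toAffine.Point) : Prop :=
  v < 0 ∧ ∃ (x y : ℚ) (h : W.toAffine.Nonsingular x y), Q = Point.some x y h ∧
    padicValRat 2 ((x - e) / m ^ 2) = v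

/-- coordinates on the model -/
theorem crd {W : WeierstrassCurve ℚ} {e m : ℚ} {a b : ℤ} (hm : m ≠ 0)
    (hR : Rt1 W e (a * m ^ 2) (b * m ^ 4)) {x y : ℚ} (h : W.toAffine.Nonsingular x y) :
    ((2 * y + W.a₁ * x + W.a₃) / (2 * m ^ 3)) ^ 2 =
      ((x - e) / m ^ 2) * (((x - e) / m ^ 2) ^ 2 + a * ((x - e) / m ^ 2) + b) := by
  have hC := ceq hR h
  rw [div_pow, hC]
  field_simp
  ring

theorem dbg [DecidableEq ℚ] {W : WeierstrassCurve ℚ} {e m : ℚ} {a b : ℤ} (hm : m ≠ 0)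
    (hR : Rt1 W e (a * m ^ 2) (b * m ^ 4)) {x y : ℚ} (h : W.toAffine.Nonsingular x y)
    (hY : 2 * y + W.a₁ * x + W.a₃ ≠ 0) :
    ∃ (x' y' : ℚ) (h' : W.toAffine.Nonsingular x' y'),
      (Point.some x y h + Point.some x y h : W.toAffine.Point) = Point.some x' y' h' ∧
      (x' - e) / m ^ 2 = (((x - e) / m ^ 2) ^ 2 - b) ^ 2 /
        (4 * ((2 * y + W.a₁ * x + W.a₃) / (2 * m ^ 3)) ^ 2) := by
  obtain ⟨x', y', h', h1, h2⟩ := dbf hR h hY
  refine ⟨x', y', h', h1, ?_⟩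
  rw [h2]
  field_simp
  ring

theorem gst [DecidableEq ℚ] {W : WeierstrassCurve ℚ} {e m : ℚ} {a b : ℤ} (hm : m ≠ 0)
    (hR : Rt1 W e (a * m ^ 2) (b * m ^ 4)) (hD : Dbl a b) {v : ℤ} {Q : W.toAffine.Point}
    (hQ : Gv W e m v Q) : Gv W e m (v - 2) (Q + Q) := by
  obtain ⟨hv, x, y, h, rfl, hx⟩ := hQ
  have hc := crd hm hR h
  have hx' : padicValRat 2 ((x - e) / m ^ 2) < 0 := by rw [hx]; exact hv
  have hx0 : (x - e) / m ^ 2 ≠ 0 := by
    intro h0
    rw [h0] at hx'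
    simp at hx'
  have hy0 : (2 * y + W.a₁ * x + W.a₃) / (2 * m ^ 3) ≠ 0 := by
    intro h0
    rw [h0] at hc
    have h1 : ((x - e) / m ^ 2) * (((x - e) / m ^ 2) ^ 2 + a * ((x - e) / m ^ 2) + b) = 0 := by
      rw [← hc]
      ring
    rcases mul_eq_zero.1 h1 with h2 | h2
    · exact hx0 h2
    · exact nrt hx' h2
  have hY : 2 * y + W.a₁ * x + W.a₃ ≠ 0 := by
    intro h0
    rw [h0, zero_div] at hy0
    exact hy0 rfl
  obtain ⟨x', y', h', h1, h2⟩ := dbg hm hR h hY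
  refine ⟨by omega, x', y', h', h1, ?_⟩
  rw [h2, (hD _ _ hy0 hc).2 hx', hx]

/-- NTD -/
theorem ntd : NtdStmt := by
  intro _ W e m a b hm hR hb hab hD x y h hY n hn h0
  have hy0 : (2 * y + W.a₁ * x + W.a₃) / (2 * m ^ 3) ≠ 0 :=
    div_ne_zero hY (mul_ne_zero two_ne_zero (pow_ne_zero 3 hm))
  obtain ⟨x', y', h', h1, h2⟩ := dbg hm hR h hY
  obtain ⟨v, hv⟩ : ∃ v, v = padicValRat 2 ((x' - e) / m ^ 2) := ⟨_, rfl⟩
  have hv0 : v < 0 := by
    rw [hv, h2]
    exact (hD _ _ hy0 (crd hm hR h)).1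
  have hG0 : Gv W e m v (Point.some x y h + Point.some x y h) :=
    ⟨hv0, x', y', h', h1, hv.symm⟩
  obtain ⟨P, hP⟩ : ∃ P : W.toAffine.Point, P = Point.some x y h := ⟨_, rfl⟩
  rw [← hP] at hG0 h0
  have hG : ∀ k : ℕ, Gv W e m (v - 2 * k) (2 ^ (k + 1) • P) := by
    intro k
    induction k with
    | zero =>
      have h3 : (2 ^ (0 + 1) • P : W.toAffine.Point) = P + P := by
        rw [zero_add, pow_one, two_nsmul]
      rw [h3]
      simpa using hG0
    | succ k ih =>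
      have h3 : (2 ^ (k + 1 + 1) • P : W.toAffine.Point) =
          2 ^ (k + 1) • P + 2 ^ (k + 1) • P := by
        rw [pow_succ 2 (k + 1), mul_nsmul, two_nsmul]
      rw [h3]
      have h4 := gst hm hR hD ih
      have h5 : v - 2 * (k : ℤ) - 2 = v - 2 * ((k + 1 : ℕ) : ℤ) := by
        push_cast
        ring
      rw [h5] at h4
      exact h4
  have hinj : Function.Injective (fun k : ℕ => 2 ^ (k + 1) • P) := by
    intro k l hkl
    have hkl' : 2 ^ (k + 1) • P = 2 ^ (l + 1) • P := hkl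
    obtain ⟨-, x1, y1, g1, e1, f1⟩ := hG k
    obtain ⟨-, x2, y2, g2, e2, f2⟩ := hG l
    rw [hkl', e2] at e1
    have hxx : x2 = x1 := by
      injection e1
    rw [hxx, f1] at f2
    omega
  have hfin : (AddSubmonoid.multiples P : Set W.toAffine.Point).Finite := by
    rw [finite_multiples]
    exact isOfFinAddOrder_iff_nsmul_eq_zero.2 ⟨n, hn, h0⟩
  refine Set.infinite_of_injective_forall_mem hinj ?_ hfin
  intro k
  exact ⟨2 ^ (k + 1), rfl⟩

end Pool.Agent.G02.H89
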